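import Pool.Agent.N477.RS9

set_option autoImplicit false

/-!
# Scaling of rows and columns of a linear program
-/

namespace Pool.Agent.J4H62.SX

open Set
open Pool.Agent.Y644.QS

variable {m n : ℕ}

/-- the scaled matrix -/
def sA (ρ : Fin m → ℚ) (σ : Fin n → ℚ) (A : Fin m → Fin n → ℚ) : Fin m → Fin n → ℚ :=
  fun i j => ρ i * A i j * σ j

/-- the scaled right hand side -/
def sb (ρ : Fin m → ℚ) (b : Fin m → ℚ) : Fin m → ℚ := fun i => ρ i * b i

/-- the scaled vector: `x = σ y` -/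
def up (σ : Fin n → ℚ) (y : Fin n → ℚ) : Fin n → ℚ := fun j => y j * σ j

/-- the scaled vector: `y = x / σ` -/
def dn (σ : Fin n → ℚ) (x : Fin n → ℚ) : Fin n → ℚ := fun j => x j / σ j

/-- the linear map `y ↦ σ y` -/
noncomputable def D (σ : Fin n → ℚ) (hσ : ∀ j, 0 < σ j) : (Fin n → ℝ) ≃L[ℝ] (Fin n → ℝ) :=
  ContinuousLinearEquiv.piCongrRight fun j =>
    ContinuousLinearEquiv.smulLeft (Units.mk0 ((σ j : ℚ) : ℝ) (by
      have : (0:ℝ) < (σ j : ℝ) := by exact_mod_cast hσ j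
      exact this.ne'))

theorem D_apply (σ : Fin n → ℚ) (hσ : ∀ j, 0 < σ j) (y : Fin n → ℝ) (j : Fin n) :
    D σ hσ y j = (σ j : ℝ) * y j := rfl

theorem D_re (σ : Fin n → ℚ) (hσ : ∀ j, 0 < σ j) (y : Fin n → ℚ) :
    D σ hσ (re y) = re (up σ y) := by
  ext j
  rw [D_apply]
  unfold re up
  push_cast
  ring

theorem up_dn (σ : Fin n → ℚ) (hσ : ∀ j, 0 < σ j) (x : Fin n → ℚ) : up σ (dn σ x) = x := by
  ext j
  unfold up dn
  exact div_mul_cancel₀ _ (hσ j).ne'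

theorem mem_scaled {ρ : Fin m → ℚ} {σ : Fin n → ℚ} (hρ : ∀ i, 0 < ρ i) (hσ : ∀ j, 0 < σ j)
    {A : Fin m → Fin n → ℚ} {b : Fin m → ℚ} {y : Fin n → ℝ} :
    y ∈ polyhedron (sA ρ σ A) (sb ρ b) ↔ D σ hσ y ∈ polyhedron A b := by
  unfold polyhedron
  rw [mem_setOf_eq, mem_setOf_eq]
  refine and_congr (forall_congr' fun i => ?_) (forall_congr' fun j => ?_)
  · have hi : (0:ℝ) < (ρ i : ℝ) := by exact_mod_cast hρ i
    have e : ∑ j, ((sA ρ σ A i j : ℚ) : ℝ) * y j =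
        (ρ i : ℝ) * ∑ j, (A i j : ℝ) * (D σ hσ y) j := by
      rw [Finset.mul_sum]
      refine Finset.sum_congr rfl fun j _ => ?_
      rw [D_apply]
      unfold sA
      push_cast
      ring
    have e2 : ((sb ρ b i : ℚ) : ℝ) = (ρ i : ℝ) * (b i : ℝ) := by
      unfold sb; push_cast; ring
    rw [e, e2]
    exact mul_le_mul_iff_right₀ hi
  · have hj : (0:ℝ) < (σ j : ℝ) := by exact_mod_cast hσ j
    rw [D_apply]
    exact (mul_nonneg_iff_of_pos_left hj).symm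

theorem image_scaled {ρ : Fin m → ℚ} {σ : Fin n → ℚ} (hρ : ∀ i, 0 < ρ i) (hσ : ∀ j, 0 < σ j)
    (A : Fin m → Fin n → ℚ) (b : Fin m → ℚ) :
    D σ hσ '' polyhedron (sA ρ σ A) (sb ρ b) = polyhedron A b := by
  ext x
  constructor
  · rintro ⟨y, hy, rfl⟩
    exact (mem_scaled hρ hσ).1 hy
  · intro hx
    refine ⟨(D σ hσ).symm x, (mem_scaled hρ hσ).2 ?_, (D σ hσ).apply_symm_apply x⟩
    rw [(D σ hσ).apply_symm_apply]
    exact hx

theorem obj_scaled (σ : Fin n → ℚ) (hσ : ∀ j, 0 < σ j) (c : Fin n → ℚ) (y : Fin n → ℝ) :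
    obj (up σ c) y = obj c (D σ hσ y) := by
  unfold obj
  refine Finset.sum_congr rfl fun j _ => ?_
  rw [D_apply]
  unfold up
  push_cast
  ring

theorem ext_scaled {ρ : Fin m → ℚ} {σ : Fin n → ℚ} (hρ : ∀ i, 0 < ρ i) (hσ : ∀ j, 0 < σ j)
    {A : Fin m → Fin n → ℚ} {b : Fin m → ℚ} {y : Fin n → ℝ} :
    D σ hσ y ∈ (polyhedron A b).extremePoints ℝ ↔
      y ∈ (polyhedron (sA ρ σ A) (sb ρ b)).extremePoints ℝ := by
  rw [← image_scaled hρ hσ A b, ← image_extremePoints (D σ hσ)]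
  exact (D σ hσ).injective.mem_set_image

/-- exposed faces and linear isomorphisms -/
theorem exposed_image (E : (Fin n → ℝ) ≃L[ℝ] (Fin n → ℝ)) {P B : Set (Fin n → ℝ)}
    (h : IsExposed ℝ P B) : IsExposed ℝ (E '' P) (E '' B) := by
  intro hne
  obtain ⟨l, hl⟩ := h (Set.image_nonempty.1 hne)
  refine ⟨l.comp (E.symm : (Fin n → ℝ) →L[ℝ] (Fin n → ℝ)), ?_⟩
  ext x
  constructor
  · rintro ⟨y, hy, rfl⟩
    rw [hl] at hy
    refine ⟨⟨y, hy.1, rfl⟩, ?_⟩
    rintro _ ⟨u, hu, rfl⟩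
    have := hy.2 u hu
    simpa using this
  · rintro ⟨⟨y, hy, rfl⟩, hx⟩
    refine ⟨y, ?_, rfl⟩
    rw [hl]
    refine ⟨hy, fun u hu => ?_⟩
    have := hx (E u) ⟨u, hu, rfl⟩
    simpa using this

theorem path_scaled {ρ : Fin m → ℚ} {σ : Fin n → ℚ} (hρ : ∀ i, 0 < ρ i) (hσ : ∀ j, 0 < σ j)
    {A : Fin m → Fin n → ℚ} {b : Fin m → ℚ} {c v : Fin n → ℚ} {N : ℕ} {x : ℕ → Fin n → ℚ}
    {d : Option (Fin n → ℚ)}
    (h : IsSimplexPath (polyhedron (sA ρ σ A) (sb ρ b)) (up σ c) (dn σ v) N x d) :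
    IsSimplexPath (polyhedron A b) c v N (fun k => up σ (x k)) (d.map (up σ)) := by
  obtain ⟨h0, h1, h2, h3, h4⟩ := h
  refine ⟨?_, fun k hk => ?_, fun k hk => ?_, fun hd y hy => ?_, fun e he => ?_⟩
  · show up σ (x 0) = v
    rw [h0, up_dn σ hσ]
  · show re (up σ (x k)) ∈ _
    rw [← D_re σ hσ]
    exact (ext_scaled hρ hσ).2 (h1 k hk)
  · obtain ⟨h5, h6⟩ := h2 k hk
    constructor
    · have h7 := exposed_image (D σ hσ) h5
      rw [image_scaled hρ hσ] at h7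
      have e : (D σ hσ) '' segment ℝ (re (x k)) (re (x (k + 1))) =
          segment ℝ (re (up σ (x k))) (re (up σ (x (k + 1)))) := by
        have := image_segment ℝ ((D σ hσ : (Fin n → ℝ) →ₗ[ℝ] (Fin n → ℝ)).toAffineMap)
          (re (x k)) (re (x (k + 1)))
        rw [← D_re σ hσ, ← D_re σ hσ]
        exact this
      rw [e] at h7
      exact h7
    · rw [obj_scaled σ hσ, obj_scaled σ hσ, D_re, D_re] at h6
      exact h6
  · have hd' : d = none := by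
      cases d with
      | none => rfl
      | some e => simp at hd
    rw [← image_scaled hρ hσ] at hy
    obtain ⟨u, hu, rfl⟩ := hy
    have h5 := h3 hd' u hu
    rw [obj_scaled σ hσ, obj_scaled σ hσ, D_re] at h5
    exact h5
  · rw [Option.map_eq_some_iff] at he
    obtain ⟨e', he', rfl⟩ := he
    obtain ⟨h5, h6⟩ := h4 e' he'
    constructor
    · have h7 := exposed_image (D σ hσ) h5
      rw [image_scaled hρ hσ] at h7
      have e : (D σ hσ) '' {z | ∃ t : ℝ, 0 ≤ t ∧ z = re (x N) + t • re e'} =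
          {z | ∃ t : ℝ, 0 ≤ t ∧ z = re (up σ (x N)) + t • re (up σ e')} := by
        ext z
        constructor
        · rintro ⟨_, ⟨t, ht, rfl⟩, rfl⟩
          exact ⟨t, ht, by rw [map_add, map_smul, D_re, D_re]⟩
        · rintro ⟨t, ht, rfl⟩
          exact ⟨_, ⟨t, ht, rfl⟩, by rw [map_add, map_smul, D_re, D_re]⟩
      rw [e] at h7
      exact h7
    · rw [obj_scaled σ hσ, D_re] at h6
      exact h6

end Pool.Agent.J4H62.SX
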