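import Pool.Agent.N477.RS10
import Pool.Agent.J4H62.SX.Scale

set_option autoImplicit false

/-!
# The algorithm with a table of numbers and a scaling
-/

namespace Pool.Agent.NPC.J4H62SX

open Pool.Agent.N477.RS Pool.Agent.Y644.QS Pool.Agent.Y644.QW Pool.Agent.H687R2.LLL
  Pool.Agent.NPC.H532.RP Pool.Agent.NPC.Y644 Pool.Agent.J4H62.SX

variable {α : Type} [TEnc α]

/-- product of rationals -/
def qm (p q : ℚ) : ℚ := mkRat (p.num * q.num) (p.den * q.den)

/-- quotient of rationals, for a positive divisor -/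
def qd (p q : ℚ) : ℚ := mkRat (p.num * (q.den : ℤ)) (p.den * q.num.natAbs)

theorem qm_eq (p q : ℚ) : qm p q = p * q := by
  unfold qm
  rw [Rat.mkRat_eq_div]
  push_cast
  rw [← div_mul_div_comm, Rat.num_div_den, Rat.num_div_den]

theorem qd_eq (p : ℚ) {q : ℚ} (hq : 0 < q) : qd p q = p / q := by
  unfold qd
  have h1 : 0 < q.num := Rat.num_pos.2 hq
  have h2 : ((q.num.natAbs : ℕ) : ℚ) = (q.num : ℚ) := by
    have : ((q.num.natAbs : ℕ) : ℤ) = q.num := by omega
    rw [← Int.cast_natCast, this]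
  rw [Rat.mkRat_eq_div]
  push_cast
  rw [h2]
  have h3 : (q.num : ℚ) ≠ 0 := by exact_mod_cast h1.ne'
  have h4 : (q.den : ℚ) ≠ 0 := by exact_mod_cast q.den_ne_zero
  have h5 : (p.den : ℚ) ≠ 0 := by exact_mod_cast p.den_ne_zero
  have e1 : p = p.num / p.den := (Rat.num_div_den p).symm
  have e2 : q = q.num / q.den := (Rat.num_div_den q).symm
  conv_rhs => rw [e1, e2]
  field_simp

theorem poly_qm {f g : α → ℚ} (hf : Poly f) (hg : Poly g) : Poly (fun a => qm (f a) (g a)) := by
  unfold qm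
  exact poly_mkRat (Poly.imul (Poly_num hf) (Poly_num hg)) (Poly.mul (Poly_den hf) (Poly_den hg))

theorem poly_qd {f g : α → ℚ} (hf : Poly f) (hg : Poly g) : Poly (fun a => qd (f a) (g a)) := by
  unfold qd
  exact poly_mkRat (Poly.imul (Poly_num hf) (Poly.natCast_int (Poly_den hg)))
    (Poly.mul (Poly_den hf) (Poly.natAbs (Poly_num hg)))

/-- entrywise products -/
def mulL (x σ : List ℚ) : List ℚ := (x.zip σ).map fun p => qm p.1 p.2

/-- entrywise quotients -/
def divL (x σ : List ℚ) : List ℚ := (x.zip σ).map fun p => qd p.1 p.2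

theorem poly_mulL {x s : α → List ℚ} (hx : Poly x) (hs : Poly s) :
    Poly (fun a => mulL (x a) (s a)) :=
  Poly.map (F := fun _ (p : ℚ × ℚ) => qm p.1 p.2) (Poly.zip hx hs)
    (poly_qm (Poly.fst (Poly.snd Poly.id)) (Poly.snd (Poly.snd Poly.id)))

theorem poly_divL {x s : α → List ℚ} (hx : Poly x) (hs : Poly s) :
    Poly (fun a => divL (x a) (s a)) :=
  Poly.map (F := fun _ (p : ℚ × ℚ) => qd p.1 p.2) (Poly.zip hx hs)
    (poly_qd (Poly.fst (Poly.snd Poly.id)) (Poly.snd (Poly.snd Poly.id)))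

/-- the scaled linear program -/
def scaleInp (r s : List ℚ) (x : Inp) : Inp :=
  ((x.1.zip r).map fun p => (mulL p.1 s).map fun q => qm p.2 q,
    (r.zip x.2.1).map fun p => qm p.1 p.2, mulL x.2.2.1 s, divL x.2.2.2 s)

/-- the path of the original linear program -/
def unscale (s : List ℚ) (o : Outp) : Outp := (o.1.map fun x => mulL x s, o.2.map fun x => mulL x s)

theorem poly_scaleInp {r s : α → List ℚ} {x : α → Inp} (hr : Poly r) (hs : Poly s) (hx : Poly x) :
    Poly (fun a => scaleInp (r a) (s a) (x a)) := by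
  unfold scaleInp
  have h1 : Poly (fun p : α × List ℚ × ℚ => (mulL p.2.1 (s p.1)).map fun q => qm p.2.2 q) :=
    Poly.map (F := fun (p : α × List ℚ × ℚ) q => qm p.2.2 q)
      (poly_mulL (Poly.fst (Poly.snd Poly.id)) (hs.comp (Poly.fst Poly.id)))
      (poly_qm (Poly.snd (Poly.snd (Poly.fst Poly.id))) (Poly.snd Poly.id))
  have h2 : Poly (fun a => ((x a).1.zip (r a)).map fun p => (mulL p.1 (s a)).map fun q => qm p.2 q) :=
    Poly.map (F := fun a (p : List ℚ × ℚ) => (mulL p.1 (s a)).map fun q => qm p.2 q)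
      (Poly.zip (Poly.fst hx) hr) h1
  have h3 : Poly (fun a => ((r a).zip (x a).2.1).map fun p => qm p.1 p.2) :=
    Poly.map (F := fun _ (p : ℚ × ℚ) => qm p.1 p.2) (Poly.zip hr (Poly.fst (Poly.snd hx)))
      (poly_qm (Poly.fst (Poly.snd Poly.id)) (Poly.snd (Poly.snd Poly.id)))
  exact Poly.pair h2 (Poly.pair h3 (Poly.pair
    (poly_mulL (Poly.fst (Poly.snd (Poly.snd hx))) hs)
    (poly_divL (Poly.snd (Poly.snd (Poly.snd hx))) hs)))

theorem poly_unscale {s : α → List ℚ} {o : α → Outp} (hs : Poly s) (ho : Poly o) :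
    Poly (fun a => unscale (s a) (o a)) := by
  unfold unscale
  have h1 : Poly (fun p : α × List ℚ => mulL p.2 (s p.1)) :=
    poly_mulL (Poly.snd Poly.id) (hs.comp (Poly.fst Poly.id))
  exact Poly.pair (Poly.map (F := fun a (x : List ℚ) => mulL x (s a)) (Poly.fst ho) h1)
    (Poly.optMap (f := fun a (x : List ℚ) => mulL x (s a)) (Poly.snd ho) h1)

/-- the algorithm on bit strings -/
def solveS (s : List Bool) : Option Outp :=
  (unbits (List Unit × List (List ℕ) × List ℚ × List ℚ × Inp) s).elim none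
    fun q => (runs (scaleInp q.2.2.1 q.2.2.2.1 q.2.2.2.2) q.1.length q.2.1).map
      (unscale q.2.2.2.1)

theorem poly_solveS : PolyTime (fun s => bits (solveS s)) := by
  refine polyTime_bits ?_
  unfold solveS
  have hx : Poly (fun p : List Bool × (List Unit × List (List ℕ) × List ℚ × List ℚ × Inp) =>
      scaleInp p.2.2.2.1 p.2.2.2.2.1 p.2.2.2.2.2) :=
    poly_scaleInp (by fun_prop) (by fun_prop) (by fun_prop)
  have h1 : Poly (fun p : List Bool × (List Unit × List (List ℕ) × List ℚ × List ℚ × Inp) =>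
      runs (scaleInp p.2.2.2.1 p.2.2.2.2.1 p.2.2.2.2.2) p.2.1.length p.2.2.1) :=
    N477RS.poly_runs hx (by fun_prop) (by fun_prop)
  have h2 : Poly (fun p : List Bool × (List Unit × List (List ℕ) × List ℚ × List ℚ × Inp) =>
      (runs (scaleInp p.2.2.2.1 p.2.2.2.2.1 p.2.2.2.2.2) p.2.1.length p.2.2.1).map
        (unscale p.2.2.2.2.1)) :=
    Poly.optMap (f := fun (p : List Bool × (List Unit × List (List ℕ) × List ℚ × List ℚ × Inp))
      (o : Outp) => unscale p.2.2.2.2.1 o) h1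
      (poly_unscale (by fun_prop) (Poly.snd Poly.id))
  exact Poly.optElim (h := fun (_ : List Bool)
    (q : List Unit × List (List ℕ) × List ℚ × List ℚ × Inp) =>
    (runs (scaleInp q.2.2.1 q.2.2.2.1 q.2.2.2.2) q.1.length q.2.1).map (unscale q.2.2.2.1))
    poly_unbits (Poly.const _) h2

theorem solveS_bits (T : ℕ) (W : List (List ℕ)) (r s : List ℚ) (x : Inp) :
    solveS (bits (List.replicate T (), W, r, s, x)) =
      (runs (scaleInp r s x) T W).map (unscale s) := by
  unfold solveS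
  rw [unbits_bits, Option.elim_some, List.length_replicate]

variable {m n : ℕ}

theorem zip_ofFn {β γ : Type} {k : ℕ} (f : Fin k → β) (g : Fin k → γ) :
    (List.ofFn f).zip (List.ofFn g) = List.ofFn fun i => (f i, g i) := by
  apply List.ext_getElem
  · simp
  · intro i h1 h2
    simp

theorem mulL_ofFn (x s : Fin n → ℚ) : mulL (List.ofFn x) (List.ofFn s) =
    List.ofFn (fun j => x j * s j) := by
  unfold mulL
  rw [zip_ofFn, List.map_ofFn]
  congr 1
  funext j
  exact qm_eq _ _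

theorem divL_ofFn (x s : Fin n → ℚ) (hs : ∀ j, 0 < s j) : divL (List.ofFn x) (List.ofFn s) =
    List.ofFn (fun j => x j / s j) := by
  unfold divL
  rw [zip_ofFn, List.map_ofFn]
  congr 1
  funext j
  exact qd_eq _ (hs j)

theorem scaleInp_inp (ρ : Fin m → ℚ) (σ : Fin n → ℚ) (hσ : ∀ j, 0 < σ j)
    (A : Fin m → Fin n → ℚ) (b : Fin m → ℚ) (c v : Fin n → ℚ) :
    scaleInp (List.ofFn ρ) (List.ofFn σ) (Y644.QS.inp A b c v) =
      Y644.QS.inp (sA ρ σ A) (sb ρ b) (up σ c) (dn σ v) := by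
  unfold scaleInp Y644.QS.inp
  simp only [mulL_ofFn, divL_ofFn _ _ hσ, zip_ofFn, List.map_ofFn, Prod.mk.injEq]
  refine ⟨?_, ?_, rfl, rfl⟩
  · congr 1
    funext i
    show ((mulL (List.ofFn (A i)) (List.ofFn σ)).map fun q => qm (ρ i) q) = _
    rw [mulL_ofFn, List.map_ofFn]
    congr 1
    funext j
    show qm (ρ i) (A i j * σ j) = ρ i * A i j * σ j
    rw [qm_eq, mul_assoc]
  · congr 1
    funext i
    exact qm_eq _ _

theorem unscale_out (σ : Fin n → ℚ) (N : ℕ) (x : ℕ → Fin n → ℚ) (d : Option (Fin n → ℚ)) :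
    unscale (List.ofFn σ) ((List.range (N + 1)).map (fun k => List.ofFn (x k)), d.map List.ofFn) =
      ((List.range (N + 1)).map (fun k => List.ofFn (up σ (x k))),
        (d.map (up σ)).map List.ofFn) := by
  unfold unscale
  simp only [List.map_map, Option.map_map, Prod.mk.injEq]
  constructor
  · congr 1
    funext k
    exact mulL_ofFn _ _
  · congr 1
    funext e
    exact mulL_ofFn _ _

end Pool.Agent.NPC.J4H62SX

namespace Pool.Agent.NPC.J4H62SX

open Pool.Agent.N477.RS Pool.Agent.Y644.QS Pool.Agent.Y644.QW Pool.Agent.H687R2.LLL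
  Pool.Agent.NPC.H532.RP Pool.Agent.NPC.Y644 Pool.Agent.J4H62.SX

/-- the number of pivots for the exponent `a` -/
def bud (a s : ℕ) : ℕ := 72 * s ^ 4 * (s ^ a) ^ 3

/-- the algorithm with the number of pivots computed from the size of the scaled program -/
def solveA (a : ℕ) (s : List Bool) : Option Outp :=
  (unbits (List (List ℕ) × List ℚ × List ℚ × Inp) s).elim none
    fun q => (runs (scaleInp q.2.1 q.2.2.1 q.2.2.2)
      (bud a (sz (scaleInp q.2.1 q.2.2.1 q.2.2.2))) q.1).map (unscale q.2.2.1)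

theorem poly_solveA (a : ℕ) : PolyTime (fun s => bits (solveA a s)) := by
  refine polyTime_bits ?_
  unfold solveA bud
  have hx : Poly (fun p : List Bool × (List (List ℕ) × List ℚ × List ℚ × Inp) =>
      scaleInp p.2.2.1 p.2.2.2.1 p.2.2.2.2) :=
    poly_scaleInp (by fun_prop) (by fun_prop) (by fun_prop)
  have hs : UPoly (fun p : List Bool × (List (List ℕ) × List ℚ × List ℚ × Inp) =>
      sz (scaleInp p.2.2.1 p.2.2.2.1 p.2.2.2.2)) := UPoly.sz hx
  have hT : UPoly (fun p : List Bool × (List (List ℕ) × List ℚ × List ℚ × Inp) =>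
      72 * sz (scaleInp p.2.2.1 p.2.2.2.1 p.2.2.2.2) ^ 4 *
        (sz (scaleInp p.2.2.1 p.2.2.2.1 p.2.2.2.2) ^ a) ^ 3) :=
    ((UPoly.const 72).mul (UPoly_pow hs 4)).mul (UPoly_pow (UPoly_pow hs a) 3)
  have h1 : Poly (fun p : List Bool × (List (List ℕ) × List ℚ × List ℚ × Inp) =>
      runs (scaleInp p.2.2.1 p.2.2.2.1 p.2.2.2.2)
        (72 * sz (scaleInp p.2.2.1 p.2.2.2.1 p.2.2.2.2) ^ 4 *
        (sz (scaleInp p.2.2.1 p.2.2.2.1 p.2.2.2.2) ^ a) ^ 3) p.2.1) :=
    N477RS.poly_runs hx hT (by fun_prop)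
  have h2 : Poly (fun p : List Bool × (List (List ℕ) × List ℚ × List ℚ × Inp) =>
      (runs (scaleInp p.2.2.1 p.2.2.2.1 p.2.2.2.2)
        (72 * sz (scaleInp p.2.2.1 p.2.2.2.1 p.2.2.2.2) ^ 4 *
        (sz (scaleInp p.2.2.1 p.2.2.2.1 p.2.2.2.2) ^ a) ^ 3) p.2.1).map
        (unscale p.2.2.2.1)) :=
    Poly.optMap (f := fun (p : List Bool × (List (List ℕ) × List ℚ × List ℚ × Inp))
      (o : Outp) => unscale p.2.2.2.1 o) h1
      (poly_unscale (by fun_prop) (Poly.snd Poly.id))
  exact Poly.optElim (h := fun (_ : List Bool)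
    (q : List (List ℕ) × List ℚ × List ℚ × Inp) =>
    (runs (scaleInp q.2.1 q.2.2.1 q.2.2.2)
        (72 * sz (scaleInp q.2.1 q.2.2.1 q.2.2.2) ^ 4 *
        (sz (scaleInp q.2.1 q.2.2.1 q.2.2.2) ^ a) ^ 3) q.1).map (unscale q.2.2.1))
    poly_unbits (Poly.const _) h2

theorem solveA_bits (a : ℕ) (W : List (List ℕ)) (r s : List ℚ) (x : Inp) :
    solveA a (bits (W, r, s, x)) =
      (runs (scaleInp r s x) (bud a (sz (scaleInp r s x))) W).map (unscale s) := by
  unfold solveA
  rw [unbits_bits, Option.elim_some]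

end Pool.Agent.NPC.J4H62SX
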