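import Pool.Agent.N477.RS4

set_option autoImplicit false

/-!
# The expected number of vertices visited by a random shadow path
-/

namespace Pool.Agent.J4H62.SX

open Matrix Set Filter Topology MeasureTheory ENNReal
open Pool.Agent.N477.MD Pool.Agent.N477.RS

variable {n : ℕ} {ι : Type*} {a : ι → Fin n → ℝ} {b : ι → ℝ} {B : Fin n → ι}

/-- Fatou -/
theorem mean_liminf [Fintype ι] (hP : IsCompact (Poly a b))
    (hB : LinearIndependent ℝ (fun k => a (B k))) {κ : ℝ} (hκ0 : 0 < κ)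
    (hκ : Bal a κ) {c : Fin n → ℝ} {S : Fin n → ι} {y w : Fin n → ℝ} (ho : Opt a b c S y w)
    {θ τ : ℝ} (hθ : 0 < θ) (hτ : 0 < τ) :
    ∫⁻ μ in box0 n, liminf (fun q : ℕ =>
      (losses (Poly a b) c (zz a B 0 μ) (τ / q) q : ℝ≥0∞)) atTop ≤
      ENNReal.ofReal (n * (1 + 2 * θ) ^ n * (κ / θ) * (κ * (n * (2 * n * κ + 1)))) := by
  set f : ℕ → (Fin n → ℝ) → ℝ≥0∞ := fun q μ =>
    (losses (Poly a b) c (zz a B 0 μ) (τ / q) q : ℝ≥0∞) with hf
  have hfm : ∀ q, Measurable (f q) := fun q => measurable_losses c _ _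
  have hlim0 : Tendsto (fun q : ℕ => τ / (q:ℝ)) atTop (𝓝 0) :=
    tendsto_const_div_atTop_nhds_zero_nat τ
  have hX : Tendsto (fun q : ℕ => τ / (q:ℝ) * (κ * (∑ k, y k) + τ / q) * κ / θ) atTop (𝓝 0) := by
    have h1 : Tendsto (fun ε : ℝ => ε * (κ * (∑ k, y k) + ε) * κ / θ) (𝓝 0)
        (𝓝 (0 * (κ * (∑ k, y k) + 0) * κ / θ)) := by
      apply Continuous.tendsto
      fun_prop
    have e : (0 * (κ * (∑ k, y k) + 0) * κ / θ : ℝ) = 0 := by ring
    rw [e] at h1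
    exact h1.comp hlim0
  have hG : Tendsto (fun q : ℕ => n * (1 + 2 * θ) ^ n /
      (1 - τ / (q:ℝ) * (κ * (∑ k, y k) + τ / q) * κ / θ) *
        (κ / θ) * (κ * (n * (2 * n * κ + 1) + τ / q * ∑ k, y k) + τ * (τ / q))) atTop
      (𝓝 (n * (1 + 2 * θ) ^ n * (κ / θ) * (κ * (n * (2 * n * κ + 1))))) := by
    have h1 : Tendsto (fun q : ℕ => n * (1 + 2 * θ) ^ n /
      (1 - τ / (q:ℝ) * (κ * (∑ k, y k) + τ / q) * κ / θ)) atTop
      (𝓝 (n * (1 + 2 * θ) ^ n / (1 - 0))) :=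
      Tendsto.div tendsto_const_nhds (tendsto_const_nhds.sub hX) (by norm_num)
    have h2 : Tendsto (fun q : ℕ => κ * (n * (2 * n * κ + 1) + τ / (q:ℝ) * ∑ k, y k) +
        τ * (τ / q)) atTop (𝓝 (κ * (n * (2 * n * κ + 1) + 0 * ∑ k, y k) + τ * 0)) :=
      (tendsto_const_nhds.mul (tendsto_const_nhds.add (hlim0.mul tendsto_const_nhds))).add
        (tendsto_const_nhds.mul hlim0)
    have h3 := (h1.mul (tendsto_const_nhds (x := κ / θ))).mul h2
    have e : n * (1 + 2 * θ) ^ n / (1 - 0) * (κ / θ) *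
        (κ * (n * (2 * n * κ + 1) + 0 * ∑ k, y k) + τ * 0) =
        n * (1 + 2 * θ) ^ n * (κ / θ) * (κ * (n * (2 * n * κ + 1))) := by
      rw [sub_zero, div_one]; ring
    rw [e] at h3
    exact h3
  refine (lintegral_liminf_le hfm).trans ?_
  rw [← (ENNReal.tendsto_ofReal hG).liminf_eq]
  refine liminf_le_liminf ?_
  filter_upwards [eventually_gt_atTop 0, hX.eventually_lt_const one_pos] with q hq hq2
  exact mean_losses' hP hB hκ0 hκ ho hθ hτ hq hq2

/-- **The expected number of vertices**, for polytopes. -/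
theorem mean_vis [Fintype ι] (hP : IsCompact (Poly a b)) {κ : ℝ} (hκ : Bal a κ)
    (hB : LinearIndependent ℝ (fun k => a (B k))) (hne : (Poly a b).Nonempty)
    (c : Fin n → ℝ) :
    ∫⁻ μ in box0 n, (((Vis (Poly a b) c (zz a B 0 μ)).ncard - 1 : ℕ) : ℝ≥0∞) ≤
      ENNReal.ofReal (18 * (n:ℝ) ^ 4 * κ ^ 3) := by
  rcases Nat.eq_zero_or_pos n with hn | hn
  · subst hn
    have : (fun μ : Fin 0 → ℝ => (((Vis (Poly a b) c (zz a B 0 μ)).ncard - 1 : ℕ) : ℝ≥0∞)) =
        fun _ => 0 := by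
      funext μ
      have h1 : (Vis (Poly a b) c (zz a B 0 μ)).ncard ≤ 1 := by
        rw [Set.ncard_le_one (vis_finite c _)]
        intro x _ y _
        exact Subsingleton.elim x y
      have h2 : (Vis (Poly a b) c (zz a B 0 μ)).ncard - 1 = 0 := by omega
      rw [h2]; simp
    rw [this]
    simp
  have hn' : (1:ℝ) ≤ n := by exact_mod_cast hn
  obtain ⟨w, hw, hmax⟩ := exists_maxAt hP hne c
  obtain ⟨S, y, hS, hSw, hy, hc⟩ := optimal_basis hw hmax
  have ho : Opt a b c S y w := ⟨hS, hy, hw.1, hSw, hc⟩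
  have hκ1 : 1 ≤ κ := one_le_kappa hκ hS ⟨0, hn⟩
  have hκ0 : 0 < κ := by linarith
  set K : ℝ := 2 * n * κ + 1 with hK
  have hK0 : 0 < K := by positivity
  set τ : ℝ := (∑ k, if 0 < y k then K / y k else 0) + 1 with hτ
  have hnn : ∀ k ∈ (Finset.univ : Finset (Fin n)), 0 ≤ (if 0 < y k then K / y k else 0) := by
    intro k _
    split_ifs with h
    · positivity
    · exact le_rfl
  have hτ0 : 0 < τ := by
    have := Finset.sum_nonneg hnn
    linarith
  have hτy : ∀ k, 0 < y k → ∀ t, τ ≤ t → K ≤ t * y k := by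
    intro k hk t ht
    have h1 := Finset.single_le_sum hnn (Finset.mem_univ k)
    rw [if_pos hk] at h1
    have h2 : K / y k ≤ t := by linarith
    rw [div_le_iff₀ hk] at h2
    exact h2
  have hend : ∀ μ ∈ box0 n, ∀ t, τ ≤ t → ∀ x, MaxAt (Poly a b) (zz a B 0 μ + t • c) x →
      MaxAt (Poly a b) c x := by
    intro μ hμ t ht x hx
    refine ⟨hx.1, fun u hu => ?_⟩
    have htight : ∀ k, 0 < y k → a (S k) ⬝ᵥ x = b (S k) := fun k hk =>
      hit hκ hS hy hw.1 hSw hμ (hτ0.le.trans ht) (hτy k hk t ht) (by rw [← hc]; exact hx)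
    rw [hc, sum_dotProduct, sum_dotProduct]
    refine Finset.sum_le_sum fun k _ => ?_
    rw [smul_dotProduct, smul_dotProduct, smul_eq_mul, smul_eq_mul]
    rcases (hy k).lt_or_eq with hk | hk
    · rw [htight k hk]
      exact mul_le_mul_of_nonneg_left (hu _) hk.le
    · rw [← hk, zero_mul, zero_mul]
  set θ : ℝ := 1 / (2 * n) with hθ
  have hθ0 : 0 < θ := by positivity
  have hml := mean_liminf hP hB hκ0 hκ ho hθ0 hτ0
  have hΛ : n * (1 + 2 * θ) ^ n * (κ / θ) * (κ * (n * (2 * n * κ + 1))) ≤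
      18 * (n:ℝ) ^ 4 * κ ^ 3 := by
    have h1 : (1 + 2 * θ) ^ n ≤ 3 := exp_bound hn
    have h2 : 2 * n * κ + 1 ≤ 3 * n * κ := by
      have : 1 ≤ (n:ℝ) * κ := by nlinarith
      nlinarith
    have h3 : κ / θ = 2 * n * κ := by rw [hθ]; field_simp
    rw [h3]
    calc n * (1 + 2 * θ) ^ n * (2 * n * κ) * (κ * (n * (2 * n * κ + 1)))
        ≤ n * 3 * (2 * n * κ) * (κ * (n * (3 * n * κ))) := by gcongr
      _ = _ := by ring
  refine le_trans ?_ (hml.trans (ENNReal.ofReal_le_ofReal hΛ))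
  have hmeas : MeasurableSet (box0 n) := measurableSet_Icc
  refine lintegral_mono_ae ?_
  rw [ae_restrict_iff' hmeas]
  filter_upwards [ae_gen (b := b) (R := 0) hB c] with μ hg hμ
  refine le_liminf_of_le (by isBoundedDefault) ?_
  filter_upwards [vis_le_losses hP hg hτ0 (hend μ hμ)] with q hq
  exact_mod_cast (by omega :
    (Vis (Poly a b) c (zz a B 0 μ)).ncard - 1 ≤ losses (Poly a b) c (zz a B 0 μ) (τ / q) q)

end Pool.Agent.J4H62.SX
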