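import Pool.Agent.J4H62.SX.Mean
import Pool.Agent.N588.TD.Run
import Pool.Agent.N477.MD8

set_option autoImplicit false

/-!
# The expected number of pivots, for linear programs `A x ≤ b`, `x ≥ 0`
-/

namespace Pool.Agent.J4H62.SX

open Matrix Set Filter Topology MeasureTheory ENNReal
open Pool.Agent.N477.MD Pool.Agent.N477.RS Pool.Agent.N588.TD

variable {m n : ℕ}

/-- **The expected number of vertices**, for linear programs. -/
theorem mean_lp {ρ : Fin m → ℝ} {σ : Fin n → ℝ} (hρ : ∀ i, 0 < ρ i) (hσ : ∀ j, 0 < σ j)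
    (A : Matrix (Fin m) (Fin n) ℝ) {κ : ℝ} (hκ : Bal (rowsP ρ σ A) κ) (b : Fin m → ℝ)
    {B : Fin n → Fin m ⊕ Fin n} (hB : LinearIndependent ℝ (fun k => rowsP ρ σ A (B k)))
    (hne : (Poly (rowsP ρ σ A) (rhsP ρ b)).Nonempty) (c : Fin n → ℝ) :
    ∫⁻ μ in box0 n, (((Vis (Poly (rowsP ρ σ A) (rhsP ρ b)) c
      (zz (rowsP ρ σ A) B 0 μ)).ncard - 1 : ℕ) : ℝ≥0∞) ≤
      ENNReal.ofReal (18 * (n:ℝ) ^ 4 * κ ^ 3) := by
  obtain ⟨C, hC⟩ := (ext_finite (a := rowsP ρ σ A) (b := rhsP ρ b)).isBounded.exists_norm_le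
  obtain ⟨x0, hx0⟩ := hne
  set M : ℝ := max C ‖x0‖ + 1 with hMdef
  have hM : ∀ x ∈ (Poly (rowsP ρ σ A) (rhsP ρ b)).extremePoints ℝ, ∀ j, x j < M := by
    intro x hx j
    have h1 : |x j| ≤ ‖x‖ := norm_le_pi_norm x j
    have h2 := hC x hx
    have h3 := le_abs_self (x j)
    have h4 := le_max_left C ‖x0‖
    linarith
  have hcomp : IsCompact (Poly (rowsT (rowsP ρ σ A) σ) (rhsT (rhsP ρ b) σ M)) := by
    apply IsCompact.of_isClosed_subset (isCompact_Icc (a := (fun _ : Fin n => (0:ℝ)))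
      (b := fun _ => M)) isClosed_poly
    intro x hx
    have h1 := (mem_polyT hσ).1 hx
    have h2 := (mem_polyP hρ hσ).1 h1.1
    exact ⟨fun j => h2.2 j, fun j => h1.2 j⟩
  have hbal : Bal (rowsT (rowsP ρ σ A) σ) κ := by
    refine bal_of_signs hκ (Sum.elim id Sum.inr)
      (Sum.elim (fun _ => 1) (fun _ => -1)) ?_ ?_
    · rintro (i | j) <;> simp
    · rintro (i | j) <;> simp [rowsT, rowsP]
  have hneT : (Poly (rowsT (rowsP ρ σ A) σ) (rhsT (rhsP ρ b) σ M)).Nonempty := by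
    refine ⟨x0, (mem_polyT hσ).2 ⟨hx0, fun j => ?_⟩⟩
    have h1 : |x0 j| ≤ ‖x0‖ := norm_le_pi_norm x0 j
    have h3 := le_abs_self (x0 j)
    have h4 := le_max_right C ‖x0‖
    linarith
  have hgc := mean_vis (B := fun k => Sum.inl (B k)) hcomp hbal hB hneT c
  refine le_trans (lintegral_mono fun μ => ?_) hgc
  have hsub : Vis (Poly (rowsP ρ σ A) (rhsP ρ b)) c (zz (rowsP ρ σ A) B 0 μ) ⊆
      Vis (Poly (rowsT (rowsP ρ σ A) σ) (rhsT (rhsP ρ b) σ M)) c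
        (zz (rowsT (rowsP ρ σ A) σ) (fun k => Sum.inl (B k)) 0 μ) := by
    rintro v ⟨hv, t, ht0, ht⟩
    refine ⟨trunc_of_ext hσ (fun j => (hM v hv j).le) hv, t, ht0,
      (mem_polyT hσ).2 ⟨hv.1, fun j => (hM v hv j).le⟩, fun x hx => ?_⟩
    exact ht.2 x ((mem_polyT hσ).1 hx).1
  have h1 := Set.ncard_le_ncard hsub (vis_finite c _)
  exact Nat.cast_le.2 (Nat.sub_le_sub_right h1 1)

theorem poly_scaled {ρ : Fin m → ℝ} {σ : Fin n → ℝ} (hρ : ∀ i, 0 < ρ i) (hσ : ∀ j, 0 < σ j)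
    (A : Matrix (Fin m) (Fin n) ℝ) (b : Fin m → ℝ) :
    Poly (rowsP ρ σ A) (rhsP ρ b) = Poly (arow A) (arhs b) := by
  ext x
  rw [mem_polyP hρ hσ, mem_arow]

/-- **Almost all start objectives lead to a complete run.** -/
theorem ae_run {ρ : Fin m → ℝ} {σ : Fin n → ℝ} (hρ : ∀ i, 0 < ρ i) (hσ : ∀ j, 0 < σ j)
    (A : Matrix (Fin m) (Fin n) ℝ) (b : Fin m → ℝ)
    {B : Fin n → Fin m ⊕ Fin n} (hB : LinearIndependent ℝ (fun k => rowsP ρ σ A (B k)))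
    {v : Fin n → ℝ} (hv : v ∈ (Poly (arow A) (arhs b)).extremePoints ℝ)
    (hBv : ∀ k, B k ∈ tight (rowsP ρ σ A) (rhsP ρ b) v) (c : Fin n → ℝ) :
    ∀ᵐ μ : Fin n → ℝ, (∀ k, 0 ≤ μ k) →
      MaxAt (Poly (arow A) (arhs b)) (zz (rowsP ρ σ A) B 0 μ) v ∧
      ∃ (N : ℕ) (x : ℕ → Fin n → ℝ), x 0 = v ∧
      (∀ k < N, SPiv (Poly (arow A) (arhs b)) c (zz (rowsP ρ σ A) B 0 μ) (x k) (x (k + 1))) ∧
      (MaxAt (Poly (arow A) (arhs b)) c (x N) ∨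
        ∃ d, SRay (Poly (arow A) (arhs b)) c (zz (rowsP ρ σ A) B 0 μ) (x N) d) := by
  obtain ⟨S, hS0, hS⟩ := exists_hyp (arow A) (arhs b) c
  have h1 : ∀ᵐ μ : Fin n → ℝ, ∀ e ∈ S, zz (rowsP ρ σ A) B 0 μ ⬝ᵥ e ≠ 0 := by
    have h2 : ∀ᵐ μ : Fin n → ℝ, ∀ e ∈ (S : Set (Fin n → ℝ)), zz (rowsP ρ σ A) B 0 μ ⬝ᵥ e ≠ 0 := by
      rw [ae_ball_iff S.countable_toSet]
      intro e he
      have h := null_zz (R := 0) hB 0 (hS0 e he)
      rw [ae_iff]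
      simpa using h
    exact h2
  filter_upwards [h1] with μ hμ hμ0
  have hmax : MaxAt (Poly (arow A) (arhs b)) (zz (rowsP ρ σ A) B 0 μ) v := by
    refine ⟨hv.1, fun u hu => ?_⟩
    rw [zz_dot, zz_dot]
    refine Finset.sum_le_sum fun k _ => ?_
    have h2 : rowsP ρ σ A (B k) ⬝ᵥ v = rhsP ρ b (B k) := hBv k
    rw [← poly_scaled hρ hσ] at hu
    have h3 := hu (B k)
    rw [h2, Pi.zero_apply, zero_add]
    exact mul_le_mul_of_nonneg_left h3 (hμ0 k)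
  obtain ⟨N, x, h0, h2, -, h3⟩ := exists_run (hS _ hμ) hv hmax
  exact ⟨hmax, N, x, h0, h2, h3⟩

end Pool.Agent.J4H62.SX
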